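import Pool.Agent.Helper475.Torsion

namespace Pool.Agent.Results.MP_4717c3_al.GuptaSidki

open Pool.Agent.Helper475.Torsion

universe u

/-- A ring is `π`-UU if every unit `u` has a power `u ^ i`, `i ≥ 1`, with `u ^ i - 1`
nilpotent. -/
def IsPiUU (R : Type*) [Ring R] : Prop :=
  ∀ u : Rˣ, ∃ i : ℕ, 1 ≤ i ∧ IsNilpotent ((u : R) ^ i - 1)

section operators

variable (K : Type u) [Field K]

/-- The action of permutations of the set of words on functions. -/
def act : P →* Module.End K (W → K) where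
  toFun g :=
    { toFun := fun v w => v (g⁻¹ w)
      map_add' := fun _ _ => rfl
      map_smul' := fun _ _ => rfl }
  map_one' := rfl
  map_mul' g h := by
    refine LinearMap.ext fun v => ?_
    funext w
    change v ((g * h)⁻¹ w) = v (h⁻¹ (g⁻¹ w))
    rw [mul_inv_rev]
    rfl

lemma act_apply (g : P) (v : W → K) (w : W) : act K g v w = v (g⁻¹ w) := rfl

/-- Averaging over the first generator. -/
noncomputable def opA : Module.End K (W → K) := (3 : K)⁻¹ • (1 + act K (rot 1) + act K (rot 1)⁻¹)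

/-- Averaging over the second generator. -/
noncomputable def opB : Module.End K (W → K) := (3 : K)⁻¹ • (1 + act K b + act K b⁻¹)

lemma opA_apply (v : W → K) (w : W) :
    opA K v w = 3⁻¹ * (v w + v (rot (-1) w) + v (rot 1 w)) := by
  change (3 : K)⁻¹ * (v w + v ((rot 1)⁻¹ w) + v ((rot 1)⁻¹⁻¹ w)) = _
  rw [inv_inv, rot_neg]

lemma opB_apply (v : W → K) (w : W) :
    opB K v w = 3⁻¹ * (v w + v (b⁻¹ w) + v (b w)) := by
  change (3 : K)⁻¹ * (v w + v (b⁻¹ w) + v (b⁻¹⁻¹ w)) = _
  rw [inv_inv]

/-- Extension of a pair of functions one level down. -/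
def ext3 (v w : W → K) : W → K
  | [] => 0
  | x :: u => if x = 2 then w u else v u

lemma b_cons (x : ZMod 3) (u : W) : b (x :: u) = x :: beta x u := by
  rw [b_eq, psi_cons]

lemma b_inv_cons (x : ZMod 3) (u : W) : b⁻¹ (x :: u) = x :: (beta x)⁻¹ u := by
  rw [Equiv.Perm.inv_eq_iff_eq, b_cons]
  simp

lemma b_inv_nil : b⁻¹ [] = [] := by
  rw [Equiv.Perm.inv_eq_iff_eq, b_eq, psi_nil]

lemma opB_ext3 (v w : W → K) : opB K (ext3 K v w) = ext3 K (opA K v) (opB K w) := by
  funext z
  rw [opB_apply]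
  cases z with
  | nil =>
    rw [b_inv_nil, b_eq, psi_nil]
    simp [ext3]
  | cons x u =>
    rw [b_cons, b_inv_cons]
    fin_cases x
    · change 3⁻¹ * (v u + v ((rot 1)⁻¹ u) + v (rot 1 u)) = opA K v u
      rw [opA_apply, rot_neg]
    · change 3⁻¹ * (v u + v ((rot (-1))⁻¹ u) + v (rot (-1) u)) = opA K v u
      rw [opA_apply, ← rot_neg, neg_neg]
      ring
    · change 3⁻¹ * (w u + w (b⁻¹ u) + w (b u)) = opB K w u
      rw [opB_apply]

lemma opA_ext3 (v w : W → K) : opA K (ext3 K v w) =
    ext3 K ((3 : K)⁻¹ • ((2 : K) • v + w)) ((3 : K)⁻¹ • ((2 : K) • v + w)) := by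
  funext z
  rw [opA_apply]
  cases z with
  | nil =>
    rw [rot_nil, rot_nil]
    simp [ext3]
  | cons x u =>
    rw [rot_cons, rot_cons]
    fin_cases x
    · change 3⁻¹ * (v u + w u + v u) = 3⁻¹ * (2 * v u + w u)
      ring
    · change 3⁻¹ * (v u + v u + w u) = 3⁻¹ * (2 * v u + w u)
      ring
    · change 3⁻¹ * (w u + v u + v u) = 3⁻¹ * (2 * v u + w u)
      ring

variable {K}

/-- averaging operators are idempotent -/
lemma avg_idem {A : Type*} [Ring A] [Algebra K A] (h3 : (3 : K) ≠ 0) (B C : A) (hBC : B * C = 1)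
    (hCB : C * B = 1) (hBB : B * B = C) :
    ((3 : K)⁻¹ • (1 + B + C)) * ((3 : K)⁻¹ • (1 + B + C)) = (3 : K)⁻¹ • (1 + B + C) := by
  have hCC : C * C = B := by
    calc C * C = C * (B * B) := by rw [hBB]
      _ = (C * B) * B := by rw [mul_assoc]
      _ = B := by rw [hCB, one_mul]
  have h1 : (1 + B + C) * (1 + B + C) = (3 : K) • (1 + B + C) := by
    have : (1 + B + C) * (1 + B + C) = 1 + B + C + (B + B * B + B * C) + (C + C * B + C * C) := by
      noncomm_ring
    rw [this, hBB, hBC, hCB, hCC]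
    rw [show (3 : K) = 1 + 1 + 1 by norm_num, add_smul, add_smul, one_smul]
    abel
  rw [smul_mul_smul_comm, h1, smul_smul, mul_assoc, inv_mul_cancel₀ h3, mul_one]

lemma rot_facts : (rot 1 : P) * (rot 1)⁻¹ = 1 ∧ (rot 1 : P)⁻¹ * rot 1 = 1 ∧
    (rot 1 : P) * rot 1 = (rot 1)⁻¹ := by
  refine ⟨mul_inv_cancel _, inv_mul_cancel _, ?_⟩
  rw [← rot_neg, ← rot_add]
  congr 1

lemma b_facts : b * b = b⁻¹ := by
  rw [eq_inv_iff_mul_eq_one]
  have := b_pow_three
  rwa [pow_succ, pow_succ, pow_one] at this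

lemma opA_idem (h3 : (3 : K) ≠ 0) : opA K * opA K = opA K := by
  apply avg_idem h3
  · rw [← map_mul, rot_facts.1, map_one]
  · rw [← map_mul, rot_facts.2.1, map_one]
  · rw [← map_mul, rot_facts.2.2]

lemma opB_idem (h3 : (3 : K) ≠ 0) : opB K * opB K = opB K := by
  apply avg_idem h3
  · rw [← map_mul, mul_inv_cancel, map_one]
  · rw [← map_mul, inv_mul_cancel, map_one]
  · rw [← map_mul, b_facts]

variable (K)

/-- The set of eigenvalues. -/
def Lam : Set K := {μ | ∃ w : W → K, w ≠ 0 ∧ opB K w = w ∧ opB K (opA K w) = μ • w}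

variable {K}

lemma step (h3 : (3 : K) ≠ 0) {l μ : K} (hl : l ∈ Lam K)
    (h : 2 * l = (3 * μ - 1) * (3 * μ - 2)) (hne : 3 * μ - 2 ≠ 0) : μ ∈ Lam K := by
  obtain ⟨w, hw, hE, hP⟩ := hl
  obtain ⟨v, hv⟩ : ∃ v, v = (3 * μ - 2)⁻¹ • opA K w := ⟨_, rfl⟩
  have hAA : opA K (opA K w) = opA K w :=
    congrArg (fun T : Module.End K (W → K) => T w) (opA_idem h3)
  have hAv : opA K v = v := by rw [hv, map_smul, hAA]
  have hAw : opA K w = (3 * μ - 2) • v := by
    rw [hv, smul_smul, mul_inv_cancel₀ hne, one_smul]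
  have hBv : opB K v = ((3 * μ - 2)⁻¹ * l) • w := by
    rw [hv, map_smul, hP, smul_smul]
  refine ⟨ext3 K v w, ?_, ?_, ?_⟩
  · intro h0
    apply hw
    funext u
    exact congrFun h0 (2 :: u)
  · rw [opB_ext3, hAv, hE]
  · rw [opA_ext3, opB_ext3]
    have e1 : opA K ((3 : K)⁻¹ • ((2 : K) • v + w)) = μ • v := by
      rw [map_smul, map_add, map_smul, hAv, hAw, ← add_smul, smul_smul]
      congr 1
      field_simp
      ring
    have e2 : opB K ((3 : K)⁻¹ • ((2 : K) • v + w)) = μ • w := by
      rw [map_smul, map_add, map_smul, hBv, hE, smul_smul]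
      have : (2 * ((3 * μ - 2)⁻¹ * l)) • w + w = (2 * ((3 * μ - 2)⁻¹ * l) + 1) • w := by
        rw [add_smul, one_smul]
      rw [this, smul_smul]
      congr 1
      have : 2 * ((3 * μ - 2)⁻¹ * l) = (3 * μ - 1) := by
        rw [mul_left_comm, h]
        field_simp
      rw [this]
      field_simp
      ring
    rw [e1, e2]
    funext z
    cases z with
    | nil => simp [ext3]
    | cons x u =>
      change (if x = 2 then μ * w u else μ * v u) = μ * (if x = 2 then w u else v u)
      split_ifs <;> rfl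

lemma one_mem_Lam (h3 : (3 : K) ≠ 0) : (1 : K) ∈ Lam K := by
  have hA : opA K (fun _ => 1) = fun _ => 1 := by
    funext w
    rw [opA_apply]
    rw [show (1 : K) + 1 + 1 = 3 by norm_num, inv_mul_cancel₀ h3]
  have hB : opB K (fun _ => 1) = fun _ => 1 := by
    funext w
    rw [opB_apply]
    rw [show (1 : K) + 1 + 1 = 3 by norm_num, inv_mul_cancel₀ h3]
  refine ⟨fun _ => 1, ?_, hB, ?_⟩
  · intro h
    exact one_ne_zero (congrFun h [])
  · rw [hA, hB, one_smul]

/-- There are infinitely many eigenvalues. -/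
lemma infinite_Lam [IsAlgClosed K] (h2 : (2 : K) ≠ 0) (h3 : (3 : K) ≠ 0) : (Lam K).Infinite := by
  classical
  intro hfin
  obtain ⟨L, hL⟩ : ∃ L : Finset K, ∀ z, z ∈ L ↔ z ∈ Lam K := ⟨hfin.toFinset, by simp⟩
  have hr : ∀ μ : K, ∃ z : K, 2 * μ = (3 * z - 1) * (3 * z - 2) := by
    intro μ
    obtain ⟨s, hs⟩ := IsAlgClosed.exists_pow_nat_eq (1 + 8 * μ) (n := 2) (by norm_num)
    refine ⟨(3 + s) / 6, ?_⟩
    have h6 : (6 : K) ≠ 0 := by
      rw [show (6 : K) = 2 * 3 by norm_num]
      exact mul_ne_zero h2 h3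
    have e1 : 3 * ((3 + s) / 6) = (3 + s) / 2 := by
      rw [show (6 : K) = 3 * 2 by norm_num, mul_div_assoc']
      rw [mul_div_mul_left _ _ h3]
    rw [e1]
    field_simp
    linear_combination (-hs)
  choose r hr using hr
  have h0 : (0 : K) ∈ Lam K := step h3 (one_mem_Lam h3) (by ring) (by
    rw [mul_zero, zero_sub]; exact neg_ne_zero.mpr h2)
  have h13 : (3 : K)⁻¹ ∈ Lam K := step h3 h0 (by rw [mul_inv_cancel₀ h3]; ring) (by
    rw [mul_inv_cancel₀ h3]; norm_num)
  have hr' : ∀ μ : K, 2 * μ = (3 * (1 - r μ) - 1) * (3 * (1 - r μ) - 2) := by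
    intro μ
    rw [hr μ]; ring
  have hinj : ∀ μ ν z : K, 2 * μ = (3 * z - 1) * (3 * z - 2) → 2 * ν = (3 * z - 1) * (3 * z - 2) →
      μ = ν := fun μ ν z h h' => mul_left_cancel₀ h2 (h.trans h'.symm)
  -- closure
  have hcl : ∀ μ ∈ L, ∀ z, 2 * μ = (3 * z - 1) * (3 * z - 2) → z ∈ insert (2 / 3 : K) L := by
    intro μ hμ z hz
    by_cases hz2 : 3 * z - 2 = 0
    · rw [Finset.mem_insert]
      left
      field_simp
      linear_combination hz2
    · rw [Finset.mem_insert]
      right
      exact (hL z).mpr (step h3 ((hL μ).mp hμ) hz hz2)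
  let A := L.image r
  let B := L.image fun μ => 1 - r μ
  have hA : A.card = L.card := Finset.card_image_of_injOn fun μ _ ν _ h => by
    have h' : r μ = r ν := h
    exact hinj μ ν (r μ) (hr μ) (by rw [h']; exact hr ν)
  have hB : B.card = L.card := Finset.card_image_of_injOn fun μ _ ν _ h => by
    have h' : 1 - r μ = 1 - r ν := h
    exact hinj μ ν (1 - r μ) (hr' μ) (by rw [h']; exact hr' ν)
  have hAB : (A ∩ B).card ≤ 1 := by
    have : A ∩ B ⊆ {(2 : K)⁻¹} := by
      intro z hz
      rw [Finset.mem_inter] at hz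
      obtain ⟨μ, _, hμ⟩ := Finset.mem_image.mp hz.1
      obtain ⟨ν, _, hν⟩ := Finset.mem_image.mp hz.2
      have e1 : μ = ν := hinj μ ν z (by rw [← hμ]; exact hr μ) (by rw [← hν]; exact hr' ν)
      subst e1
      rw [Finset.mem_singleton]
      have e2 : 2 * z = 1 := by linear_combination (-1 : K) * hμ - hν
      exact (eq_inv_of_mul_eq_one_right e2)
    exact (Finset.card_le_card this).trans (by simp)
  have hU : (A ∪ B).card ≤ L.card + 1 := by
    have : A ∪ B ⊆ insert (2 / 3 : K) L := by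
      intro z hz
      rcases Finset.mem_union.mp hz with h | h
      · obtain ⟨μ, hμ, rfl⟩ := Finset.mem_image.mp h
        exact hcl μ hμ _ (hr μ)
      · obtain ⟨μ, hμ, rfl⟩ := Finset.mem_image.mp h
        exact hcl μ hμ _ (hr' μ)
    exact (Finset.card_le_card this).trans (Finset.card_insert_le _ _)
  have hsum := Finset.card_union_add_card_inter A B
  have h3L : 3 ≤ L.card := by
    have hsub : ({0, 1, (3 : K)⁻¹} : Finset K) ⊆ L := by
      intro z hz
      rw [Finset.mem_insert, Finset.mem_insert, Finset.mem_singleton] at hz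
      rcases hz with rfl | rfl | rfl
      · exact (hL _).mpr h0
      · exact (hL _).mpr (one_mem_Lam h3)
      · exact (hL _).mpr h13
    have hcard : ({0, 1, (3 : K)⁻¹} : Finset K).card = 3 := by
      rw [Finset.card_eq_three]
      refine ⟨0, 1, (3 : K)⁻¹, zero_ne_one, (inv_ne_zero h3).symm, ?_, rfl⟩
      intro h
      have e1 : (3 : K) = 1 := by
        calc (3 : K) = 3 * 1 := (mul_one _).symm
          _ = 3 * (3 : K)⁻¹ := by rw [← h]
          _ = 1 := mul_inv_cancel₀ h3
      apply h2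
      linear_combination e1
    rw [← hcard]
    exact Finset.card_le_card hsub
  omega

open Polynomial in
/-- The polynomials describing the powers of the matrix `((1+t, t), (1, 1))`. -/
noncomputable def ab (K : Type u) [Field K] : ℕ → K[X] × K[X]
  | 0 => (1, 0)
  | n + 1 => ((X + 1) * (ab K n).1 + X * (ab K n).2, (ab K n).1 + (ab K n).2)

open Polynomial in
lemma ab_deg (n : ℕ) : (ab K n).1.Monic ∧ (ab K n).1.natDegree = n ∧
    (ab K n).2.degree < n := by
  induction n with
  | zero => exact ⟨monic_one, natDegree_one, by simp [ab]⟩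
  | succ n ih =>
    obtain ⟨h1, h2, h3⟩ := ih
    have hd : (ab K n).1.degree = n := by
      rw [degree_eq_natDegree h1.ne_zero, h2]
    have hX1 : (X + 1 : K[X]).Monic := by
      simpa using monic_X_add_C (1 : K)
    have hX1d : (X + 1 : K[X]).natDegree = 1 := by
      simpa using natDegree_X_add_C (1 : K)
    have h4 : ((X + 1) * (ab K n).1 : K[X]).Monic := hX1.mul h1
    have h5 : ((X + 1) * (ab K n).1 : K[X]).natDegree = n + 1 := by
      rw [hX1.natDegree_mul h1, hX1d, h2, add_comm]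
    have h6 : ((X + 1) * (ab K n).1 : K[X]).degree = (n + 1 : ℕ) := by
      rw [degree_eq_natDegree h4.ne_zero, h5]
    have h7 : (X * (ab K n).2 : K[X]).degree < ((X + 1) * (ab K n).1 : K[X]).degree := by
      rw [h6, degree_mul, degree_X]
      by_cases h0 : (ab K n).2 = 0
      · rw [h0, degree_zero]
        simp
      · rw [degree_eq_natDegree h0] at h3 ⊢
        have : (ab K n).2.natDegree < n := by exact_mod_cast h3
        have h8 : 1 + (ab K n).2.natDegree < n + 1 := by omega
        exact_mod_cast h8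
    refine ⟨h4.add_of_left h7, ?_, ?_⟩
    · change ((X + 1) * (ab K n).1 + X * (ab K n).2).natDegree = n + 1
      rw [natDegree_add_eq_left_of_degree_lt h7, h5]
    · change ((ab K n).1 + (ab K n).2).degree < ((n + 1 : ℕ) : WithBot ℕ)
      refine (degree_add_le _ _).trans_lt ?_
      rw [max_lt_iff, hd]
      refine ⟨by exact_mod_cast Nat.lt_succ_self n, h3.trans (by exact_mod_cast Nat.lt_succ_self n)⟩

end operators

section algebra

variable (F : Type u) [Field F]

/-- the first generator in `GS` -/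
def ga : GS := ⟨rot 1, Subgroup.subset_closure (by simp)⟩
/-- the second generator in `GS` -/
def gb : GS := ⟨b, Subgroup.subset_closure (by simp)⟩

open MonoidAlgebra

/-- the idempotent of the second generator -/
noncomputable def ee : MonoidAlgebra F GS := (3 : F)⁻¹ • (1 + of F GS gb + of F GS gb⁻¹)
/-- the idempotent of the first generator -/
noncomputable def ff : MonoidAlgebra F GS := (3 : F)⁻¹ • (1 + of F GS ga + of F GS ga⁻¹)

variable {F}

lemma ee_idem (h3 : (3 : F) ≠ 0) : ee F * ee F = ee F := by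
  apply avg_idem h3
  · rw [← map_mul, mul_inv_cancel, map_one]
  · rw [← map_mul, inv_mul_cancel, map_one]
  · rw [← map_mul]
    congr 1
    exact Subtype.ext b_facts

lemma ff_idem (h3 : (3 : F) ≠ 0) : ff F * ff F = ff F := by
  apply avg_idem h3
  · rw [← map_mul, mul_inv_cancel, map_one]
  · rw [← map_mul, inv_mul_cancel, map_one]
  · rw [← map_mul]
    congr 1
    exact Subtype.ext rot_facts.2.2

/-- The unit `(1 + e f (1 - e)) (1 + (1 - e) f e)`. -/
noncomputable def uu (h3 : (3 : F) ≠ 0) : (MonoidAlgebra F GS)ˣ :=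
  have hx : (ee F * ff F * (1 - ee F)) * (ee F * ff F * (1 - ee F)) = 0 := by
    calc (ee F * ff F * (1 - ee F)) * (ee F * ff F * (1 - ee F))
        = ee F * ff F * (ee F - ee F * ee F) * (ff F * (1 - ee F)) := by noncomm_ring
      _ = 0 := by rw [ee_idem h3, sub_self, mul_zero, zero_mul]
  have hy : ((1 - ee F) * ff F * ee F) * ((1 - ee F) * ff F * ee F) = 0 := by
    calc ((1 - ee F) * ff F * ee F) * ((1 - ee F) * ff F * ee F)
        = (1 - ee F) * ff F * (ee F - ee F * ee F) * (ff F * ee F) := by noncomm_ring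
      _ = 0 := by rw [ee_idem h3, sub_self, mul_zero, zero_mul]
  ⟨(1 + ee F * ff F * (1 - ee F)) * (1 + (1 - ee F) * ff F * ee F),
   (1 - (1 - ee F) * ff F * ee F) * (1 - ee F * ff F * (1 - ee F)), by
    obtain ⟨x, hx'⟩ : ∃ x, x = ee F * ff F * (1 - ee F) := ⟨_, rfl⟩
    obtain ⟨y, hy'⟩ : ∃ y, y = (1 - ee F) * ff F * ee F := ⟨_, rfl⟩
    rw [← hx'] at hx ⊢
    rw [← hy'] at hy ⊢
    calc (1 + x) * (1 + y) * ((1 - y) * (1 - x)) = (1 + x) * (1 - y * y) * (1 - x) := by
          noncomm_ring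
      _ = 1 - x * x := by rw [hy]; noncomm_ring
      _ = 1 := by rw [hx, sub_zero], by
    obtain ⟨x, hx'⟩ : ∃ x, x = ee F * ff F * (1 - ee F) := ⟨_, rfl⟩
    obtain ⟨y, hy'⟩ : ∃ y, y = (1 - ee F) * ff F * ee F := ⟨_, rfl⟩
    rw [← hx'] at hx ⊢
    rw [← hy'] at hy ⊢
    calc (1 - y) * (1 - x) * ((1 + x) * (1 + y)) = (1 - y) * (1 - x * x) * (1 + y) := by
          noncomm_ring
      _ = 1 - y * y := by rw [hx]; noncomm_ring
      _ = 1 := by rw [hy, sub_zero]⟩

variable (F)

/-- The representation of the group algebra. -/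
noncomputable def rep (K : Type u) [Field K] [Algebra F K] :
    MonoidAlgebra F GS →ₐ[F] Module.End K (W → K) :=
  MonoidAlgebra.lift F (Module.End K (W → K)) GS ((act K).comp GS.subtype)

variable {F}

lemma rep_of (K : Type u) [Field K] [Algebra F K] (g : GS) : rep F K (of F GS g) = act K g.1 := by
  rw [rep, MonoidAlgebra.lift_of]
  rfl

lemma rep_ee (K : Type u) [Field K] [Algebra F K] : rep F K (ee F) = opB K := by
  rw [ee, map_smul, map_add, map_add, map_one, rep_of, rep_of, opB]
  have : ∀ T : Module.End K (W → K), (3 : F)⁻¹ • T = (3 : K)⁻¹ • T := by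
    intro T
    rw [← algebraMap_smul K (3 : F)⁻¹ T, map_inv₀, map_ofNat]
  rw [this]
  rfl

lemma rep_ff (K : Type u) [Field K] [Algebra F K] : rep F K (ff F) = opA K := by
  rw [ff, map_smul, map_add, map_add, map_one, rep_of, rep_of, opA]
  have : ∀ T : Module.End K (W → K), (3 : F)⁻¹ • T = (3 : K)⁻¹ • T := by
    intro T
    rw [← algebraMap_smul K (3 : F)⁻¹ T, map_inv₀, map_ofNat]
  rw [this]
  rfl

/-- The powers of the unit act on an eigenvector as the powers of `((1+t, t), (1, 1))`. -/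
lemma uu_pow_apply (h3 : (3 : F) ≠ 0) (K : Type u) [Field K] [Algebra F K] {μ : K} {w : W → K}
    (h3K : (3 : K) ≠ 0) (hE : opB K w = w) (hP : opB K (opA K w) = μ • w) (n : ℕ) :
    rep F K ((uu h3 : MonoidAlgebra F GS) ^ n) w = ((ab K n).1.eval (μ - μ ^ 2)) • w +
      ((ab K n).2.eval (μ - μ ^ 2)) • (opA K w - opB K (opA K w)) := by
  have hAA : ∀ v, opA K (opA K v) = opA K v := fun v =>
    congrArg (fun T : Module.End K (W → K) => T v) (opA_idem h3K)
  have hBB : ∀ v, opB K (opB K v) = opB K v := fun v =>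
    congrArg (fun T : Module.End K (W → K) => T v) (opB_idem h3K)
  obtain ⟨w', hw'⟩ : ∃ w', w' = opA K w - opB K (opA K w) := ⟨_, rfl⟩
  obtain ⟨x, hx⟩ : ∃ x : Module.End K (W → K), x = opB K * opA K * (1 - opB K) := ⟨_, rfl⟩
  obtain ⟨y, hy⟩ : ∃ y : Module.End K (W → K), y = (1 - opB K) * opA K * opB K := ⟨_, rfl⟩
  have hu : rep F K (uu h3 : MonoidAlgebra F GS) = (1 + x) * (1 + y) := by
    change rep F K ((1 + ee F * ff F * (1 - ee F)) * (1 + (1 - ee F) * ff F * ee F)) = _
    rw [map_mul, map_add, map_add, map_mul, map_mul, map_mul, map_mul, map_sub, map_one, rep_ee,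
      rep_ff, hx, hy]
  have hBw' : opB K w' = 0 := by
    rw [hw', map_sub, hBB, sub_self]
  have hxw : x w = 0 := by
    rw [hx]
    change opB K (opA K (w - opB K w)) = 0
    rw [hE, sub_self, map_zero, map_zero]
  have hyw : y w = w' := by
    rw [hy]
    change opA K (opB K w) - opB K (opA K (opB K w)) = w'
    rw [hE, hw']
  have hyw' : y w' = 0 := by
    rw [hy]
    change opA K (opB K w') - opB K (opA K (opB K w')) = 0
    rw [hBw', map_zero, map_zero, sub_zero]
  have hxw' : x w' = (μ - μ ^ 2) • w := by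
    rw [hx]
    change opB K (opA K (w' - opB K w')) = _
    rw [hBw', sub_zero, hw', map_sub, map_sub, hAA, hP, map_smul, map_smul, hP, smul_smul,
      ← sub_smul, pow_two]
  have hstep : ∀ α β : K, ((1 + x) * (1 + y)) (α • w + β • w') =
      ((1 + (μ - μ ^ 2)) * α + (μ - μ ^ 2) * β) • w + (α + β) • w' := by
    intro α β
    have e1 : (1 + y) (α • w + β • w') = α • w + (α + β) • w' := by
      change (α • w + β • w') + y (α • w + β • w') = _
      rw [map_add, map_smul, map_smul, hyw, hyw', smul_zero, add_zero, add_smul]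
      abel
    change (1 + x) ((1 + y) (α • w + β • w')) = _
    rw [e1]
    change (α • w + (α + β) • w') + x (α • w + (α + β) • w') = _
    rw [map_add, map_smul, map_smul, hxw, hxw', smul_zero, zero_add, smul_smul]
    module
  induction n with
  | zero =>
    rw [pow_zero, map_one]
    change w = _
    simp [ab]
  | succ n ih =>
    rw [pow_succ', map_mul, hu]
    change ((1 + x) * (1 + y)) (rep F K ((uu h3 : MonoidAlgebra F GS) ^ n) w) = _
    rw [ih, ← hw', hstep]
    congr 2
    · simp only [ab, Polynomial.eval_add, Polynomial.eval_mul, Polynomial.eval_X,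
        Polynomial.eval_one]
      ring
    · simp only [ab, Polynomial.eval_add]

theorem not_piUU (p : ℕ) [hp : Fact p.Prime] (hp5 : 5 ≤ p) [CharP F p] :
    ¬ IsPiUU (MonoidAlgebra F GS) := by
  have h2 : (2 : F) ≠ 0 := by
    intro h
    have : ((2 : ℕ) : F) = 0 := by exact_mod_cast h
    rw [CharP.cast_eq_zero_iff F p] at this
    have := Nat.le_of_dvd (by norm_num) this
    omega
  have h3 : (3 : F) ≠ 0 := by
    intro h
    have : ((3 : ℕ) : F) = 0 := by exact_mod_cast h
    rw [CharP.cast_eq_zero_iff F p] at this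
    have := Nat.le_of_dvd (by norm_num) this
    omega
  intro hpi
  obtain ⟨i, hi, k, hk⟩ := hpi (uu h3)
  have hchar : CharP (MonoidAlgebra F GS) p :=
    charP_of_injective_algebraMap (algebraMap F (MonoidAlgebra F GS)).injective p
  -- `u` has finite order
  obtain ⟨N, hN, huN⟩ : ∃ N : ℕ, 1 ≤ N ∧ (uu h3 : MonoidAlgebra F GS) ^ N = 1 := by
    refine ⟨i * p ^ k, Nat.one_le_iff_ne_zero.mpr (mul_ne_zero (by omega)
      (pow_ne_zero _ hp.out.ne_zero)), ?_⟩
    have h1 : ((uu h3 : MonoidAlgebra F GS) ^ i - 1) ^ (p ^ k) = 0 := by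
      have hle : k ≤ p ^ k := (Nat.lt_pow_self hp.out.one_lt).le
      exact pow_eq_zero_of_le hle hk
    rw [sub_pow_char_pow_of_commute p k (Commute.one_right _), one_pow, sub_eq_zero,
      ← pow_mul] at h1
    exact h1
  let K := AlgebraicClosure F
  have h2K : (2 : K) ≠ 0 := by
    intro h
    apply h2
    apply (algebraMap F K).injective
    rw [map_ofNat, h, map_zero]
  have h3K : (3 : K) ≠ 0 := by
    intro h
    apply h3
    apply (algebraMap F K).injective
    rw [map_ofNat, h, map_zero]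
  have hroot : ∀ μ ∈ Lam K, (ab K N).1.eval (μ - μ ^ 2) = 1 := by
    rintro μ ⟨w, hw, hE, hP⟩
    have h := uu_pow_apply h3 K h3K hE hP N
    rw [huN, map_one] at h
    have h' := congrArg (opB K) h
    have hBB : ∀ v, opB K (opB K v) = opB K v := fun v =>
      congrArg (fun T : Module.End K (W → K) => T v) (opB_idem h3K)
    rw [map_add, map_smul, map_smul, map_sub, hBB, sub_self, smul_zero, add_zero] at h'
    change opB K w = _ at h'
    rw [hE] at h'
    have h4 : ((ab K N).1.eval (μ - μ ^ 2) - 1) • w = 0 := by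
      rw [sub_smul, one_smul, ← h', sub_self]
    rcases smul_eq_zero.mp h4 with h5 | h5
    · exact sub_eq_zero.mp h5
    · exact absurd h5 hw
  obtain ⟨hmon, hdeg, _⟩ := ab_deg (K := K) N
  obtain ⟨Q, hQ⟩ : ∃ Q : Polynomial K,
      Q = ((ab K N).1 - 1).comp (Polynomial.X - Polynomial.X ^ 2) := ⟨_, rfl⟩
  have hQ0 : Q ≠ 0 := by
    intro h0
    have h1 : ((ab K N).1 - 1).natDegree = N := by
      have hlt : (1 : Polynomial K).degree < (ab K N).1.degree := by
        rw [Polynomial.degree_one, Polynomial.degree_eq_natDegree hmon.ne_zero, hdeg]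
        exact_mod_cast hN
      rw [Polynomial.natDegree_sub_eq_left_of_natDegree_lt]
      · exact hdeg
      · rw [Polynomial.natDegree_one, hdeg]
        exact hN
    have h2' : (Polynomial.X - Polynomial.X ^ 2 : Polynomial K).natDegree = 2 := by
      rw [Polynomial.natDegree_sub_eq_right_of_natDegree_lt]
      · exact Polynomial.natDegree_X_pow 2
      · rw [Polynomial.natDegree_X, Polynomial.natDegree_X_pow]
        norm_num
    have h3' : Q.natDegree = N * 2 := by
      rw [hQ, Polynomial.natDegree_comp, h1, h2']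
    rw [h0, Polynomial.natDegree_zero] at h3'
    omega
  apply hQ0
  apply Polynomial.eq_zero_of_infinite_isRoot
  refine (infinite_Lam h2K h3K).mono ?_
  intro μ hμ
  change Q.IsRoot μ
  rw [Polynomial.IsRoot.def, hQ, Polynomial.eval_comp]
  simp only [Polynomial.eval_sub, Polynomial.eval_X, Polynomial.eval_pow, Polynomial.eval_one]
  rw [hroot μ hμ, sub_self]

end algebra

/-- There is a torsion group `G` (the Gupta–Sidki `3`-group) such that for every field `F` of
characteristic `p ≥ 5` the group algebra `F G` is not `π`-UU. For instance `F = ZMod 5`, whose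
multiplicative group is finite. -/
theorem result : ∃ (G : Type) (_ : Group G), (∀ g : G, IsOfFinOrder g) ∧
    ∀ (p : ℕ) (_ : p.Prime), 5 ≤ p → ∀ (F : Type u) [Field F] [CharP F p],
      ¬ IsPiUU (MonoidAlgebra F G) := by
  refine ⟨GS, inferInstance, ?_, ?_⟩
  · intro g
    have h := torsion g.1 g.2
    rw [isOfFinOrder_iff_pow_eq_one] at h ⊢
    obtain ⟨n, hn, h⟩ := h
    exact ⟨n, hn, Subtype.ext h⟩
  · intro p hp hp5 F _ _
    have : Fact p.Prime := ⟨hp⟩
    exact not_piUU p hp5

end Pool.Agent.Results.MP_4717c3_al.GuptaSidki
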